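import Pool.Agent.K1H62.MC.Plan

set_option autoImplicit false

/-! The piece `S_LPOS` : a deformation with positive first variation (integration by parts). -/

namespace Pool.Agent.K1H59.MC

open MeasureTheory Filter Topology Pool.Agent.K1H62.MC
open scoped ENNReal ContDiff

noncomputable section

/-- product of a smooth function with compact support in `U` and a function smooth on `U` -/
lemma smooth_mul {F G : E → ℝ} {U : Set E} (hU : IsOpen U) (hF : ContDiff ℝ ∞ F)
    (hs : tsupport F ⊆ U) (hG : ContDiffOn ℝ ∞ G U) : ContDiff ℝ ∞ (fun x => F x * G x) := by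
  rw [contDiff_iff_contDiffAt]
  intro x
  by_cases hx : x ∈ tsupport (fun x => F x * G x)
  · have hx' : x ∈ U := hs (tsupport_mul_subset_left hx)
    exact hF.contDiffAt.mul (hG.contDiffAt (hU.mem_nhds hx'))
  · have h1 : (fun x => F x * G x) =ᶠ[𝓝 x] fun _ => 0 := notMem_tsupport_iff_eventuallyEq.mp hx
    exact contDiffAt_const.congr_of_eventuallyEq h1

/-- the integral of a partial derivative of a function with compact support -/
lemma int_pd {H : E → ℝ} (hH : ContDiff ℝ ∞ H) (hc : HasCompactSupport H) (i : Fin 3) :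
    ∫ x, pd i H x = 0 := by
  have hH1 : Continuous (pd i H) := (pd_smooth' hH i).continuous
  have hc1 : HasCompactSupport (pd i H) := by
    apply hc.mono'
    exact (subset_tsupport _).trans (pd_tsupport i)
  have h := integral_mul_fderiv_eq_neg_fderiv_mul_of_integrable (μ := (volume : Measure E))
    (f := H) (g := fun _ => (1 : ℝ)) (v := EuclideanSpace.single i (1 : ℝ))
    (by
      have : Integrable (pd i H) (volume : Measure E) := hH1.integrable_of_hasCompactSupport hc1
      simp only [mul_one]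
      exact this)
    (by simp)
    (by simpa using hH.continuous.integrable_of_hasCompactSupport hc)
    (fun x _ => hH.contDiffAt.differentiableAt (by norm_num)) (fun x _ => differentiableAt_const _)
  simp only [fderiv_fun_const, Pi.zero_apply, zero_apply, mul_zero,
    integral_zero, mul_one] at h
  unfold pd
  linarith

/-- integration by parts -/
lemma ibp {F G : E → ℝ} {U : Set E} (hU : IsOpen U) (hF : ContDiff ℝ ∞ F) (hc : HasCompactSupport F)
    (hs : tsupport F ⊆ U) (hG : ContDiffOn ℝ ∞ G U) (i : Fin 3) :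
    ∫ x, pd i F x * G x = - ∫ x, F x * pd i G x := by
  have hH := smooth_mul hU hF hs hG
  have hcH : HasCompactSupport (fun x => F x * G x) := hc.mul_right
  have h0 := int_pd hH hcH i
  have hpF : ContDiff ℝ ∞ (pd i F) := pd_smooth' hF i
  have hcF : HasCompactSupport (pd i F) := by
    apply hc.mono'
    exact (subset_tsupport _).trans (pd_tsupport i)
  have h1 := smooth_mul hU hpF ((pd_tsupport i).trans hs) hG
  have h2 := smooth_mul hU hF hs (pd_smooth hU hG i)
  have i1 : Integrable (fun x => pd i F x * G x) (volume : Measure E) :=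
    h1.continuous.integrable_of_hasCompactSupport hcF.mul_right
  have i2 : Integrable (fun x => F x * pd i G x) (volume : Measure E) :=
    h2.continuous.integrable_of_hasCompactSupport hc.mul_right
  have e : ∀ x, pd i (fun x => F x * G x) x = F x * pd i G x + pd i F x * G x := by
    intro x
    by_cases hx : x ∈ U
    · exact pd_mul i (hF.contDiffAt.differentiableAt (by norm_num)) (diff_of hU hG hx)
    · have hx' : x ∉ tsupport F := fun h => hx (hs h)
      have a1 : F x = 0 := image_eq_zero_of_notMem_tsupport hx'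
      have a2 : pd i F x = 0 := pd_zero_of_notMem i hx'
      have a3 : x ∉ tsupport (fun x => F x * G x) := fun h => hx' (tsupport_mul_subset_left h)
      rw [pd_zero_of_notMem i a3, a1, a2]; ring
  simp_rw [e] at h0
  rw [integral_add i2 i1] at h0
  linarith

/-- integration by parts, twice -/
lemma ibp2 {F G : E → ℝ} {U : Set E} (hU : IsOpen U) (hF : ContDiff ℝ ∞ F) (hc : HasCompactSupport F)
    (hs : tsupport F ⊆ U) (hG : ContDiffOn ℝ ∞ G U) (i : Fin 3) :
    ∫ x, pd i (pd i F) x * G x = ∫ x, F x * pd i (pd i G) x := by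
  have hcF : HasCompactSupport (pd i F) := by
    apply hc.mono'
    exact (subset_tsupport _).trans (pd_tsupport i)
  rw [ibp hU (pd_smooth' hF i) hcF ((pd_tsupport i).trans hs) hG i,
    ibp hU hF hc hs (pd_smooth hU hG i) i, neg_neg]

lemma s_x0 : s x₀ = 6 := by
  unfold s x₀ pp
  have e1 : (EuclideanSpace.single 0 3 - EuclideanSpace.single 0 1 : E) = EuclideanSpace.single 0 2 := by
    ext i; fin_cases i <;> norm_num
  have e2 : (EuclideanSpace.single 0 3 + EuclideanSpace.single 0 1 : E) = EuclideanSpace.single 0 4 := by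
    ext i; fin_cases i <;> norm_num
  rw [e1, e2]
  simp
  norm_num

lemma Q1_smooth (hP : S_POT) : ContDiffOn ℝ ∞ Q1 {x | 2 < s x} := by
  have h := fun i => pd_smooth (open_s 2) hP.1 i
  have e : Q1 = fun x => 3 * pd 0 u x ^ 2 - pd 1 u x ^ 2 - pd 2 u x ^ 2 := rfl
  rw [e]
  exact ((contDiffOn_const.mul ((h 0).pow 2)).sub ((h 1).pow 2)).sub ((h 2).pow 2)

lemma Q0_smooth (hP : S_POT) : ContDiffOn ℝ ∞ Q0 {x | 2 < s x} := by
  have h := fun i => pd_smooth (open_s 2) hP.1 i
  have e : Q0 = fun x => pd 0 u x ^ 2 - 3 * pd 1 u x ^ 2 + pd 2 u x ^ 2 := rfl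
  rw [e]
  exact (((h 0).pow 2).sub (contDiffOn_const.mul ((h 1).pow 2))).add ((h 2).pow 2)

theorem lpos : S_LPOS := by
  intro _ hP hD
  set U : Set E := {x | 2 < s x} with hUdef
  have hU : IsOpen U := open_s 2
  set D : E → ℝ := fun x => pd 1 (pd 1 Q1) x + pd 0 (pd 0 Q0) x with hDdef
  have h1 : ContDiffOn ℝ ∞ (pd 1 (pd 1 Q1)) U := pd_smooth hU (pd_smooth hU (Q1_smooth hP) 1) 1
  have h0 : ContDiffOn ℝ ∞ (pd 0 (pd 0 Q0)) U := pd_smooth hU (pd_smooth hU (Q0_smooth hP) 0) 0
  have hDs : ContDiffOn ℝ ∞ D U := h1.add h0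
  have hD0 : D x₀ ≠ 0 := hD
  have hx0 : x₀ ∈ U := by show 2 < s x₀; rw [s_x0]; norm_num
  -- the sign
  obtain ⟨ε, hε⟩ : ∃ ε : ℝ, 0 < ε * D x₀ := ⟨D x₀, mul_self_pos.mpr hD0⟩
  have hcont : ContinuousAt (fun x => ε * D x) x₀ :=
    continuousAt_const.mul ((hDs.continuousOn).continuousAt (hU.mem_nhds hx0))
  have hev : ∀ᶠ x in 𝓝 x₀, 0 < ε * D x := hcont.eventually (lt_mem_nhds hε)
  have hev2 : ∀ᶠ x in 𝓝 x₀, 4 < s x :=
    (open_s 4).mem_nhds (by show 4 < s x₀; rw [s_x0]; norm_num)
  obtain ⟨r, hr, hball⟩ := Metric.eventually_nhds_iff_ball.mp (hev.and hev2)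
  let f : ContDiffBump x₀ := ⟨r / 4, r / 2, by positivity, by linarith⟩
  have hf : ContDiff ℝ ∞ (f : E → ℝ) := f.contDiff
  have hts : tsupport (f : E → ℝ) ⊆ Metric.ball x₀ r := by
    rw [f.tsupport_eq]
    exact Metric.closedBall_subset_ball (by show r / 2 < r; linarith)
  set F : E → ℝ := fun x => ε * f x with hFdef
  have hF : ContDiff ℝ ∞ F := contDiff_const.mul hf
  have hFc : HasCompactSupport F := f.hasCompactSupport.mul_left
  have hFts : tsupport F ⊆ tsupport (f : E → ℝ) := tsupport_mul_subset_right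
  have hF4 : tsupport F ⊆ {x | 4 < s x} := fun x hx => (hball x (hts (hFts hx))).2
  have hFU : tsupport F ⊆ U := fun x hx => by
    have : 4 < s x := hF4 hx
    show 2 < s x
    linarith
  refine ⟨F, ⟨hF, hFc, hF4⟩, ?_⟩
  -- the integral
  have e1 := ibp2 hU hF hFc hFU (Q1_smooth hP) 1
  have e0 := ibp2 hU hF hFc hFU (Q0_smooth hP) 0
  have c1 : ∀ i : Fin 3, HasCompactSupport (pd i (pd i F)) := by
    intro i
    apply hFc.mono'
    exact (subset_tsupport _).trans ((pd_tsupport i).trans (pd_tsupport i))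
  have i1 : Integrable (fun x => pd 1 (pd 1 F) x * Q1 x) (volume : Measure E) :=
    (smooth_mul hU (pd_smooth' (pd_smooth' hF 1) 1) (((pd_tsupport 1).trans (pd_tsupport 1)).trans hFU)
      (Q1_smooth hP)).continuous.integrable_of_hasCompactSupport (c1 1).mul_right
  have i0 : Integrable (fun x => pd 0 (pd 0 F) x * Q0 x) (volume : Measure E) :=
    (smooth_mul hU (pd_smooth' (pd_smooth' hF 0) 0) (((pd_tsupport 0).trans (pd_tsupport 0)).trans hFU)
      (Q0_smooth hP)).continuous.integrable_of_hasCompactSupport (c1 0).mul_right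
  have j1 : Integrable (fun x => F x * pd 1 (pd 1 Q1) x) (volume : Measure E) :=
    (smooth_mul hU hF hFU h1).continuous.integrable_of_hasCompactSupport hFc.mul_right
  have j0 : Integrable (fun x => F x * pd 0 (pd 0 Q0) x) (volume : Measure E) :=
    (smooth_mul hU hF hFU h0).continuous.integrable_of_hasCompactSupport hFc.mul_right
  have hLf : Lf F = ∫ x, F x * D x := by
    unfold Lf
    rw [setIntegral_eq_integral_of_forall_compl_eq_zero]
    · rw [integral_add i1 i0, e1, e0, ← integral_add j1 j0]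
      congr 1
      funext x
      rw [hDdef]; ring
    · intro x hx
      have hx' : x ∉ tsupport F := fun h => hx (le_of_lt (hF4 h) : 4 ≤ s x)
      have a1 : x ∉ tsupport (pd 1 F) := fun h => hx' (pd_tsupport 1 h)
      have a0 : x ∉ tsupport (pd 0 F) := fun h => hx' (pd_tsupport 0 h)
      rw [pd_zero_of_notMem 1 a1, pd_zero_of_notMem 0 a0]; ring
  rw [hLf]
  have hcF : Continuous (fun x => F x * D x) := (smooth_mul hU hF hFU hDs).continuous
  have hnn : 0 ≤ fun x => F x * D x := by
    intro x
    show 0 ≤ F x * D x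
    by_cases hx : x ∈ tsupport (f : E → ℝ)
    · have := (hball x (hts hx)).1
      have h2 : 0 ≤ f x := f.nonneg
      calc (0 : ℝ) ≤ f x * (ε * D x) := mul_nonneg h2 this.le
        _ = F x * D x := by rw [hFdef]; ring
    · have : f x = 0 := image_eq_zero_of_notMem_tsupport hx
      rw [hFdef]; simp [this]
  refine hcF.integral_pos_of_hasCompactSupport_nonneg_nonzero hFc.mul_right hnn (x := x₀) ?_
  have hfx : f x₀ = 1 := f.one_of_mem_closedBall (Metric.mem_closedBall_self f.rIn_pos.le)
  rw [hFdef]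
  simp only [hfx, mul_one]
  exact hε.ne'

end

end Pool.Agent.K1H59.MC
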